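import Pool.Agent.P8H71.SK.Stm

/-!
Project SK, package ONE: unbounded sequences of matrices of determinant one have unbounded conjugates of
an elementary nilpotent matrix.
-/

set_option autoImplicit false

namespace Pool.Agent.P8H24.SK

open Pool.Agent.P8H71.SK

theorem one : S_ONE := by
  intro d hd g hg C
  by_contra hcon
  push Not at hcon
  have hC0 : 0 ≤ C := le_trans (abs_nonneg _)
    (hcon 0 ⟨0, by omega⟩ ⟨1, by omega⟩ (by simp) ⟨0, by omega⟩ ⟨0, by omega⟩)
  have hdC : 0 ≤ (d : ℝ) * (C * C) := by positivity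
  have hall : ∀ n (i j a b : Fin d),
      |(g n).1 a i * ((g n)⁻¹).1 j b| ≤ C + (d : ℝ) * (C * C) := by
    intro n i j a b
    by_cases hij : i = j
    · subst hij
      obtain ⟨k, hk⟩ : ∃ k : Fin d, k ≠ i := by
        have : Nontrivial (Fin d) := Fin.nontrivial_iff_two_le.2 hd
        exact exists_ne i
      have h1 : ((g n)⁻¹).1 * (g n).1 = 1 := congrArg Subtype.val (inv_mul_cancel (g n))
      have h2 : ∑ c, ((g n)⁻¹).1 k c * (g n).1 c k = 1 := by
        have := congrFun (congrFun h1 k) k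
        rwa [Matrix.mul_apply, Matrix.one_apply_eq] at this
      have h3 : (g n).1 a i * ((g n)⁻¹).1 i b =
          ∑ c, ((g n).1 a i * ((g n)⁻¹).1 k c) * ((g n).1 c k * ((g n)⁻¹).1 i b) := by
        calc (g n).1 a i * ((g n)⁻¹).1 i b = ((g n).1 a i * ((g n)⁻¹).1 i b) * 1 := (mul_one _).symm
          _ = ((g n).1 a i * ((g n)⁻¹).1 i b) * ∑ c, ((g n)⁻¹).1 k c * (g n).1 c k := by rw [h2]
          _ = _ := by
            rw [Finset.mul_sum]
            exact Finset.sum_congr rfl fun c _ => by ring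
      rw [h3]
      calc |∑ c, ((g n).1 a i * ((g n)⁻¹).1 k c) * ((g n).1 c k * ((g n)⁻¹).1 i b)|
          ≤ ∑ c, |((g n).1 a i * ((g n)⁻¹).1 k c) * ((g n).1 c k * ((g n)⁻¹).1 i b)| :=
            Finset.abs_sum_le_sum_abs _ _
        _ ≤ ∑ _c : Fin d, C * C := Finset.sum_le_sum fun c _ => by
            rw [abs_mul]
            exact mul_le_mul (hcon n i k hk.symm a c) (hcon n k i hk c b) (abs_nonneg _) hC0
        _ = d * (C * C) := by simp
        _ ≤ C + (d : ℝ) * (C * C) := by linarith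
    · exact (hcon n i j hij a b).trans (by linarith)
  set M : ℝ := C + (d : ℝ) * (C * C) with hM
  have hM0 : 0 ≤ M := by positivity
  obtain ⟨n, a, i, hai⟩ := hg (d.factorial * (M + 1))
  have hf : (1 : ℝ) ≤ d.factorial := by exact_mod_cast d.factorial_pos
  have hf0 : (0 : ℝ) < d.factorial := by linarith
  have hK : 0 < (d.factorial : ℝ) * (M + 1) := by positivity
  have hG1 : 0 < |(g n).1 a i| := lt_trans hK hai
  have hsmall : ∀ j b, AbsoluteValue.abs (((g n)⁻¹).1 j b) ≤ M / |(g n).1 a i| := by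
    intro j b
    rw [le_div_iff₀ hG1, mul_comm, AbsoluteValue.abs_apply, ← abs_mul]
    exact hall n i j a b
  have hdet := Matrix.det_le (abv := AbsoluteValue.abs) (A := ((g n)⁻¹).1) hsmall
  rw [((g n)⁻¹).2, map_one, Fintype.card_fin, nsmul_eq_mul] at hdet
  have h1 : M / |(g n).1 a i| ≤ M / ((d.factorial : ℝ) * (M + 1)) :=
    div_le_div_of_nonneg_left hM0 hK hai.le
  have h2 : M / ((d.factorial : ℝ) * (M + 1)) < 1 / d.factorial := by
    rw [div_lt_div_iff₀ hK hf0]
    nlinarith
  have h3 : 0 ≤ M / |(g n).1 a i| := by positivity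
  have h4 : (1 : ℝ) / d.factorial ≤ 1 := by
    rw [div_le_one hf0]
    exact hf
  have h5 : (M / |(g n).1 a i|) ^ d ≤ M / |(g n).1 a i| :=
    pow_le_of_le_one h3 (by linarith) (by omega)
  have h6 : (d.factorial : ℝ) * (M / |(g n).1 a i|) ^ d < d.factorial * (1 / d.factorial) :=
    mul_lt_mul_of_pos_left (by linarith) hf0
  rw [mul_one_div_cancel hf0.ne'] at h6
  linarith

end Pool.Agent.P8H24.SK
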